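import Pool.Agent.Helper97.RE.Upper
import Pool.Agent.Helper68.RE.Regularize
import Pool.Agent.Helper97.RE.Lib.Helper77_Iter
import Pool.Agent.Helper97.RE.Lib.Helper48_Lower

/-!
# The closure theorem and the rational exponent theorem
-/

set_option autoImplicit false

namespace Pool.Agent.Helper68.RE

open Finset Asymptotics Filter
open Pool.Agent.Helper97.RE

/-- closure theorem: the exponent `1 + x` gives the exponent `1 + 1 / (k + 2 - x)` -/
theorem closure (H : BG) (k : ℕ) (x : ℝ) (hx : 0 ≤ x) (hx1 : x ≤ 1)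
    (hex : ∃ C : ℝ, ∀ n : ℕ, (SimpleGraph.extremalNumber n H.G : ℝ) ≤ C * (n : ℝ) ^ (1 + x)) :
    ∃ C : ℝ, ∀ n : ℕ, (SimpleGraph.extremalNumber n (BG.op k H).G : ℝ) ≤
      C * (n : ℝ) ^ (1 + 1 / ((k : ℝ) + 2 - x)) := by
  by_contra hcon
  have hy : 0 < 1 / ((k : ℝ) + 2 - x) := by
    apply one_div_pos.2
    have : (0 : ℝ) ≤ k := Nat.cast_nonneg k
    linarith
  have hy1 : 1 / ((k : ℝ) + 2 - x) ≤ 1 := by
    have : (0 : ℝ) ≤ k := Nat.cast_nonneg k
    rw [div_le_one (by linarith)]
    linarith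
  obtain ⟨K, hK, hreg⟩ := regularize _ hy hy1
  obtain ⟨B, hB⟩ := upper_main H k x hx hx1 hex K
  obtain ⟨W, _, _, G, _, c, d, hne, hfree, hc, hdeg, hd⟩ := hreg _ (BG.opG k H) hcon B
  exact absurd hd (not_le.2 (hB W G c d hne hfree hc hdeg))

theorem iter_upper (ks : List ℕ) (P : ℕ) : ∃ C : ℝ, ∀ n : ℕ,
    (SimpleGraph.extremalNumber n (iter ks (star P)).G : ℝ) ≤ C * (n : ℝ) ^ (1 + xs ks) := by
  induction ks with
  | nil => exact star_ex P
  | cons k ks ih => exact closure (iter ks (star P)) k (xs ks) (xs_mem ks).1 (xs_mem ks).2.le ih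

theorem BG.exists_nbr (H : BG) (x : H.V) : ∃ y, H.G.Adj x y := by
  obtain ⟨z, hz⟩ := H.both (!(H.c x))
  have hne : x ≠ z := by
    rintro rfl
    cases h : H.c x <;> simp_all
  have h1 : H.G.Reachable x z := H.conn.preconnected x z
  obtain ⟨w⟩ := h1
  cases w with
  | nil => exact absurd rfl hne
  | cons h _ => exact ⟨_, h⟩

theorem iter_lower (ks : List ℕ) : ∃ (P : ℕ) (c : ℝ), 0 < c ∧ ∃ N0 : ℕ, ∀ n, N0 ≤ n →
    c * (n : ℝ) ^ (1 + xs ks) ≤ SimpleGraph.extremalNumber n (iter ks (star P)).G := by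
  classical
  obtain ⟨h1, h2⟩ := xs_mem ks
  obtain ⟨c, hc, P, N0, hP⟩ := lower (iter ks (star 0)).G (root 0 ks) (1 - xs ks) (by linarith)
    (by linarith) (BG.exists_nbr _) (iter_bal ks)
  refine ⟨P, c, hc, N0, ?_⟩
  intro n hn
  obtain ⟨G, hG1, hG2⟩ := hP n hn
  obtain ⟨i, hi1, hi2, hi3, hi4⟩ := iter_copies ks P
  have hfree : (iter ks (star P)).G.Free G := by
    rintro ⟨f⟩
    have h3 := hG2 (fun x => f (i 0 x))
    have h4 : Fintype.card (Fin (P + 1)) ≤ Nat.card {φ : (iter ks (star 0)).V → Fin n //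
        Function.Injective φ ∧ (∀ a b, (iter ks (star 0)).G.Adj a b → G.Adj (φ a) (φ b)) ∧
        ∀ x, root 0 ks x → φ x = f (i 0 x)} := by
      rw [← Nat.card_eq_fintype_card]
      refine Nat.card_le_card_of_injective (fun a => ⟨fun x => f (i a x), ?_, ?_, ?_⟩) ?_
      · exact f.injective.comp (hi2 a)
      · intro x y hxy
        exact f.toHom.map_adj (hi3 a x y hxy)
      · intro x hx
        simp only
        rw [hi4 a 0 x hx]
      · intro a b hab
        apply hi1
        funext x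
        have := congrFun (Subtype.ext_iff.1 hab) x
        exact f.injective this
    rw [Fintype.card_fin] at h4
    omega
  have h5 := SimpleGraph.card_edgeFinset_le_extremalNumber hfree
  rw [Fintype.card_fin] at h5
  have h6 : (Nat.card G.edgeSet : ℝ) ≤ SimpleGraph.extremalNumber n (iter ks (star P)).G := by
    rw [Nat.card_eq_fintype_card, ← SimpleGraph.edgeFinset_card]
    exact_mod_cast h5
  have h7 : (2 : ℝ) - (1 - xs ks) = 1 + xs ks := by ring
  rw [h7] at hG1
  exact hG1.trans h6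

/-- the rational exponent theorem -/
theorem rational_exponent : ∀ p q : ℕ, 0 < p → p < q →
      ∃ k : ℕ, ∃ H : SimpleGraph (Fin k), H.Colorable 2 ∧
        (fun n : ℕ => (SimpleGraph.extremalNumber n H : ℝ)) =Θ[atTop]
          (fun n : ℕ => (n : ℝ) ^ (1 + (p : ℝ) / (q : ℝ))) := by
  classical
  intro p q hp hpq
  obtain ⟨ks, -, hks⟩ := exists_xs p q hp hpq
  obtain ⟨P, c, hc, N0, hlow⟩ := iter_lower ks
  obtain ⟨C, hup⟩ := iter_upper ks P
  set H := iter ks (star P) with hH
  have e : H.V ≃ Fin (Fintype.card H.V) := Fintype.equivFin H.V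
  refine ⟨Fintype.card H.V, H.G.map e.toEmbedding, ?_, ?_⟩
  · have hcol : H.G.Colorable 2 := by
      have hcol' : H.G.Coloring Bool := SimpleGraph.Coloring.mk H.c (fun {a b} h => H.proper h)
      have := hcol'.colorable
      simpa using this
    exact SimpleGraph.Colorable.of_hom (SimpleGraph.Iso.map e H.G).symm.toHom hcol
  · have hiso : ∀ n, SimpleGraph.extremalNumber n (H.G.map e.toEmbedding) =
        SimpleGraph.extremalNumber n H.G := fun n =>
      (SimpleGraph.extremalNumber_congr_right (SimpleGraph.Iso.map e H.G)).symm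
    simp only [hiso]
    rw [← hks]
    have hn0 : ∀ n : ℕ, (0 : ℝ) ≤ (n : ℝ) ^ (1 + xs ks) := fun n => by positivity
    constructor
    · refine IsBigO.of_bound (|C|) (Eventually.of_forall fun n => ?_)
      rw [Real.norm_of_nonneg (Nat.cast_nonneg _), Real.norm_of_nonneg (hn0 n)]
      exact (hup n).trans (mul_le_mul_of_nonneg_right (le_abs_self C) (hn0 n))
    · refine IsBigO.of_bound (1 / c) ?_
      filter_upwards [eventually_ge_atTop N0] with n hn
      rw [Real.norm_of_nonneg (Nat.cast_nonneg _), Real.norm_of_nonneg (hn0 n)]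
      have := hlow n hn
      rw [div_mul_eq_mul_div, one_mul, le_div_iff₀ hc]
      linarith

end Pool.Agent.Helper68.RE
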